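import Pool.Agent.W295.NL.StmD

set_option autoImplicit false

namespace Pool.Agent.W274.NL.DB

open Pool.Agent.W295.NL

theorem per_mod {Q : Type} {L : Q → Q → Q} {n : ℕ} {X : Fin 3 → ℕ → Q} {κ : ℕ → Fin 3}
    (hC : Cyc L n X κ) (a : Fin 3) {t s : ℕ} (h : t ≡ s [MOD 2 * n]) : X a t = X a s := by
  have key : ∀ k t, X a (t + k * (2 * n)) = X a t := by
    intro k
    induction k with
    | zero => intro t; simp
    | succ k ih =>
      intro t
      have e : t + (k + 1) * (2 * n) = (t + k * (2 * n)) + 2 * n := by ring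
      rw [e, hC.per, ih]
  have h1 : ∀ t, X a t = X a (t % (2 * n)) := by
    intro t
    conv_lhs => rw [← Nat.mod_add_div t (2 * n)]
    rw [mul_comm (2 * n) (t / (2 * n)), key]
  rw [h1 t, h1 s]
  have : t % (2 * n) = s % (2 * n) := h
  rw [this]

theorem surj {Q : Type} [Finite Q] {n : ℕ} {X : Fin 3 → ℕ → Q}
    (hcard : Nat.card Q = n)
    (hinj : ∀ a t t', X a t = X a t' → t ≡ t' [MOD 2] → t ≡ t' [MOD 2 * n])
    (a : Fin 3) (v : Q) (e : ℕ) : ∃ t, X a t = v ∧ t % 2 = e % 2 := by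
  classical
  have := Fintype.ofFinite Q
  have hc : Fintype.card (Fin n) = Fintype.card Q := by
    rw [Fintype.card_fin, ← Nat.card_eq_fintype_card, hcard]
  have hi : Function.Injective (fun i : Fin n => X a (2 * i.val + e)) := by
    intro i j hij
    have h1 := hinj a _ _ hij (by
      unfold Nat.ModEq
      omega)
    have h2 : 2 * i.val ≡ 2 * j.val [MOD 2 * n] := Nat.ModEq.add_right_cancel' e h1
    unfold Nat.ModEq at h2
    rw [Nat.mod_eq_of_lt (by have := i.2; omega), Nat.mod_eq_of_lt (by have := j.2; omega)] at h2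
    apply Fin.ext
    omega
  have hb := (Fintype.bijective_iff_injective_and_card _).2 ⟨hi, hc⟩
  obtain ⟨i, hi⟩ := hb.2 v
  exact ⟨2 * i.val + e, hi, by omega⟩

theorem core {Q : Type} [Finite Q] (L : Q → Q → Q) (n : ℕ) (hn : 2 ≤ n)
    (hcard : Nat.card Q = n) (X : Fin 3 → ℕ → Q) (κ : ℕ → Fin 3) (hC : Cyc L n X κ)
    (hinj : ∀ a t t', X a t = X a t' → t ≡ t' [MOD 2] → t ≡ t' [MOD 2 * n])
    (a : Fin 3) (v : Q) : ∃ t t' : ℕ, ((X 0 t, X 1 t) : Q × Q) ≠ (X 0 t', X 1 t') ∧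
      X a t = v ∧ X a t' = v ∧ ∀ s, X a s = v →
        (((X 0 s, X 1 s) : Q × Q) = (X 0 t, X 1 t) ∨ ((X 0 s, X 1 s) : Q × Q) = (X 0 t', X 1 t')) := by
  obtain ⟨t, ht, htm⟩ := surj hcard hinj a v 0
  obtain ⟨t', ht', htm'⟩ := surj hcard hinj a v 1
  refine ⟨t, t', ?_, ht, ht', ?_⟩
  · intro he
    rw [Prod.mk.injEq] at he
    obtain ⟨h0, h1⟩ := he
    have hall : ∀ b : Fin 3, X b t = X b t' := by
      intro b
      fin_cases b
      · exact h0
      · exact h1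
      · change X 2 t = X 2 t'
        rw [hC.sym, hC.sym, h0, h1]
    have e1 : X (κ (t + 1)) (t + 1) = X (κ (t + 1)) t' := by
      rw [hC.edge t]
      exact hall _
    have m1 := hinj _ _ _ e1 (by unfold Nat.ModEq; omega)
    obtain ⟨T, hT⟩ : ∃ T, t + 2 * n = T + 1 := ⟨t + 2 * n - 1, by omega⟩
    have e2 : X (κ (T + 1)) T = X (κ (T + 1)) t' := by
      rw [← hC.edge T, ← hT, hC.per]
      exact hall _
    have m2 := hinj _ _ _ e2 (by unfold Nat.ModEq; omega)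
    have m3 : t + 1 ≡ T [MOD 2 * n] := m1.trans m2.symm
    have m4 : t + 1 + 1 ≡ T + 1 [MOD 2 * n] := m3.add_right 1
    rw [← hT] at m4
    have m5 : t + 2 ≡ t + 0 [MOD 2 * n] := by
      refine m4.trans ?_
      unfold Nat.ModEq
      simp
    have m6 : 2 ≡ 0 [MOD 2 * n] := Nat.ModEq.add_left_cancel' t m5
    have m7 : 2 * n ∣ 2 := (Nat.modEq_zero_iff_dvd).1 m6
    have := Nat.le_of_dvd (by norm_num) m7
    omega
  · intro s hs
    rcases Nat.mod_two_eq_zero_or_one s with h | h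
    · left
      have := hinj a s t (by rw [hs, ht]) (by unfold Nat.ModEq; omega)
      rw [per_mod hC 0 this, per_mod hC 1 this]
    · right
      have := hinj a s t' (by rw [hs, ht']) (by unfold Nat.ModEq; omega)
      rw [per_mod hC 0 this, per_mod hC 1 this]

theorem main : S_DB := by
  intro Q _ L hn hB
  obtain ⟨X, κ, hC, hinj⟩ := hB
  have key := core L (Nat.card Q) hn rfl X κ hC hinj
  have two : ∀ (a : Fin 3) (v : Q) (S : Set (Q × Q)),
      (∀ p, p ∈ S ↔ ∃ t, p = (X 0 t, X 1 t) ∧ X a t = v) → S.ncard = 2 := by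
    intro a v S hS
    obtain ⟨t, t', hne, ht, ht', hall⟩ := key a v
    rw [Set.ncard_eq_two]
    refine ⟨(X 0 t, X 1 t), (X 0 t', X 1 t'), hne, ?_⟩
    ext p
    rw [hS, Set.mem_insert_iff, Set.mem_singleton_iff]
    constructor
    · rintro ⟨s, rfl, hs⟩
      exact hall s hs
    · rintro (rfl | rfl)
      · exact ⟨t, rfl, ht⟩
      · exact ⟨t', rfl, ht'⟩
  refine ⟨Set.range (fun t => (X 0 t, X 1 t)), fun r => ?_, fun c => ?_, fun s => ?_⟩
  · refine two 0 r _ fun p => ?_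
    constructor
    · rintro ⟨⟨t, rfl⟩, h⟩
      exact ⟨t, rfl, h⟩
    · rintro ⟨t, rfl, h⟩
      exact ⟨⟨t, rfl⟩, h⟩
  · refine two 1 c _ fun p => ?_
    constructor
    · rintro ⟨⟨t, rfl⟩, h⟩
      exact ⟨t, rfl, h⟩
    · rintro ⟨t, rfl, h⟩
      exact ⟨⟨t, rfl⟩, h⟩
  · refine two 2 s _ fun p => ?_
    constructor
    · rintro ⟨⟨t, rfl⟩, h⟩
      exact ⟨t, rfl, (hC.sym t).trans h⟩
    · rintro ⟨t, rfl, h⟩
      exact ⟨⟨t, rfl⟩, (hC.sym t).symm.trans h⟩

end Pool.Agent.W274.NL.DB
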